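import Pool.Agent.ACK.StmtsA

set_option autoImplicit false

namespace Pool.Agent.ACK.H65

open Pool.Agent.ACK

theorem BL_append (C : ℕ → List ℕ) (a b : List Tk) : BL C (a ++ b) = BL C a ++ BL C b := by
  unfold BL
  rw [List.flatMap_append]

theorem bk_pos (C : ℕ → List ℕ) (t : Tk) (h : C t.1 ≠ []) : 0 < (bk C t).length := by
  have h1 : 0 < (C t.1).length := List.length_pos_iff.mpr h
  unfold bk
  split_ifs
  · rw [List.length_reverse]
    exact h1
  · exact h1

theorem L_step (C : ℕ → List ℕ) (b : List Tk) (hne : ∀ t ∈ b, C t.1 ≠ []) (k : ℕ)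
    (hk : k < b.length) :
    (BL C (b.take k)).length < (BL C (b.take (k + 1))).length := by
  have h1 : b.take (k + 1) = b.take k ++ [b[k]] := by
    rw [List.take_append_getElem]
  rw [h1, BL_append, List.length_append]
  have h2 : 0 < (BL C [b[k]]).length := by
    have h3 : BL C [b[k]] = bk C b[k] := by
      unfold BL
      rw [List.flatMap_singleton]
    rw [h3]
    exact bk_pos C _ (hne _ (List.getElem_mem hk))
  omega

theorem L_mono (C : ℕ → List ℕ) (b : List Tk) (i j : ℕ) (hij : i ≤ j) :
    (BL C (b.take i)).length ≤ (BL C (b.take j)).length := by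
  have h1 : b.take j = b.take i ++ (b.drop i).take (j - i) := by
    obtain ⟨d, rfl⟩ := Nat.exists_eq_add_of_le hij
    rw [Nat.add_sub_cancel_left, List.take_add]
  rw [h1, BL_append, List.length_append]
  omega

theorem L_le (C : ℕ → List ℕ) (b : List Tk) (i : ℕ) :
    (BL C (b.take i)).length ≤ (BL C b).length := by
  have h1 : BL C b = BL C (b.take i) ++ BL C (b.drop i) := by
    rw [← BL_append, List.take_append_drop]
  rw [h1, List.length_append]
  omega

theorem gp_val (c : ℕ) (C : ℕ → List ℕ) (b : List Tk) (hc : 1 ≤ c)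
    (hne : ∀ t ∈ b, C t.1 ≠ []) (hl : (BL C b).length = 2 * c) (k : ℕ) (hk : k < b.length) :
    (gp c C b k).val + 1 = (BL C (b.take (k + 1))).length := by
  have h1 := L_step C b hne k hk
  have h2 := L_le C b (k + 1)
  have h3 : gp c C b k = (((BL C (b.take (k + 1))).length - 1 : ℕ) : ZMod (2 * c)) := by
    unfold gp
    rw [Nat.cast_sub (by omega), Nat.cast_one]
  rw [h3, ZMod.val_natCast, Nat.mod_eq_of_lt (by omega)]
  omega

/-- **GPB** -/
theorem gpb : GpbStmt := by
  intro c C b hc hcw hl
  have hne := hcw.ne
  refine ⟨?_, ?_⟩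
  · intro k hk
    rw [gp_val c C b hc hne hl k hk]
    have h1 : BL C b = BL C (b.take (k + 1)) ++ BL C (b.drop (k + 1)) := by
      rw [← BL_append, List.take_append_drop]
    have h2 : b.rotate (k + 1) = b.drop (k + 1) ++ b.take (k + 1) :=
      List.rotate_eq_drop_append_take (by omega)
    rw [h2, BL_append]
    conv_lhs => rw [h1]
    rw [List.rotate_append_length_eq]
  · intro k hk k' hk' h
    have e1 := gp_val c C b hc hne hl k hk
    have e2 := gp_val c C b hc hne hl k' hk'
    rw [h] at e1
    have e3 : (BL C (b.take (k + 1))).length = (BL C (b.take (k' + 1))).length := by omega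
    rcases lt_trichotomy k k' with hlt | heq | hgt
    · have h1 := L_step C b hne k' hk'
      have h2 := L_mono C b (k + 1) k' (by omega)
      omega
    · exact heq
    · have h1 := L_step C b hne k hk
      have h2 := L_mono C b (k' + 1) k (by omega)
      omega

end Pool.Agent.ACK.H65
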